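import Pool.Agent.Helper86.NB.St

/-! Project NB (helper86), module NLH: nilpotent groups satisfy HypC. -/

set_option autoImplicit false

namespace Pool.Agent.Helper41.NB

open Filter Topology Pool.Agent.Helper86.NB Pool.Agent.Helper86.ML Pool.Agent.Helper67.Cour

theorem hNLH : StNLH := by
  intro K _ hK N _ hN
  classical
  have hex : ∃ n, (⊤ : Subgroup K).lowerCentralSeries n ≤ N := by
    obtain ⟨n, hn⟩ := (Subgroup.nilpotent_iff_lowerCentralSeries (G := K)).1 hK
    exact ⟨n, by rw [hn]; exact bot_le⟩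
  have h0 : Nat.find hex ≠ 0 := by
    intro h0
    have h1 := Nat.find_spec hex
    rw [h0] at h1
    exact hN (top_le_iff.1 h1)
  obtain ⟨m, hm⟩ := Nat.exists_eq_succ_of_ne_zero h0
  have hlt : ¬ (⊤ : Subgroup K).lowerCentralSeries m ≤ N := Nat.find_min hex (by omega)
  rw [SetLike.not_le_iff_exists] at hlt
  obtain ⟨a, ha, haN⟩ := hlt
  refine ⟨a, haN, fun k => ?_⟩
  have h1 := Nat.find_spec hex
  rw [hm] at h1
  exact h1 (Subgroup.commutator_mem_commutator ha (Subgroup.mem_top k))

end Pool.Agent.Helper41.NB
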